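import Pool.Agent.V11110.ZN6

/-!
# MP_098288_an: a simple C*-algebra which is not a `Z*` algebra although no operator in any
representation of it is injective

The compact group `X = ∏ ZMod (4^(j+2))` acts on itself by translation.  Over `X` there is a
field of Hilbert spaces with basis the truncated labels `tr x γ`, `γ ∈ {0,1}^ℕ`, where the label is
truncated at the first vanishing coordinate of `x`; it is nonseparable over the closed nowhere
dense set `C` of points without vanishing coordinate, which has positive Haar measure.  The
algebra is generated by the partial isometries `(x, tr x γ₂) ↦ (x + h, tr (x + h) γ₁)`, `x ∈ V`,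
with `V` a cylinder set and `h ∈ X`.  It has an element which is injective over the complement of
`C`, hence is not a zero divisor.  In a representation, an averaging argument finds a vector living
over `C` for a label not occurring in a given element.
-/

noncomputable section

namespace Pool.Agent.Results.MP_098288_an.NotZStar

/-- `A` is a `Z*` algebra: every positive element is a zero divisor.  The positive elements of a
C*-algebra are the elements `b⋆ b`. -/
def IsZStar (A : Type*) [NonUnitalCStarAlgebra A] : Prop :=
  ∀ b : A, ∃ y : A, y ≠ 0 ∧ ((star b * b) * y = 0 ∨ y * (star b * b) = 0)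

/-- `A` is simple: it is nonzero and its only closed two-sided ideals are `{0}` and `A`. -/
def IsSimpleAlg (A : Type*) [NonUnitalCStarAlgebra A] : Prop :=
  Nontrivial A ∧ ∀ J : Submodule ℂ A, IsClosed (J : Set A) →
    (∀ a : A, ∀ x ∈ J, a * x ∈ J ∧ x * a ∈ J) → J = ⊥ ∨ J = ⊤

/-- In every representation on a nonzero Hilbert space no operator in the image is injective. -/
def NoInjective.{u, v} (A : Type u) [NonUnitalCStarAlgebra A] : Prop :=
  ∀ (H : Type v) [NormedAddCommGroup H] [InnerProductSpace ℂ H] [CompleteSpace H] [Nontrivial H]
    (π : A →⋆ₙₐ[ℂ] (H →L[ℂ] H)) (a : A), ∃ ξ : H, ξ ≠ 0 ∧ π a ξ = 0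

open Pool.Agent.V11110.ZN in
theorem result.{v} : ∃ (A : Type) (_ : NonUnitalCStarAlgebra A),
    IsSimpleAlg A ∧ ¬ IsZStar A ∧ NoInjective.{0, v} A := by
  refine ⟨S0, inferInstance, ⟨?_, simple⟩, ?_, ?_⟩
  · refine ⟨⟨tA (fun _ => false) 0 (fun _ => false) cyl_univ, 0, fun h => ?_⟩⟩
    have h1 : T (fun _ => false) 0 (fun _ => false) Set.univ = 0 := congrArg Subtype.val h
    have h2 := ent_T (fun _ => false) 0 (fun _ => false) Set.univ
      (0, tr 0 (fun _ => false)) (0, tr 0 (fun _ => false))
    rw [h1] at h2
    have h3 : ent (0 : L2 Om →L[ℂ] L2 Om) (0, tr 0 (fun _ => false)) (0, tr 0 (fun _ => false))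
        = 0 := rfl
    rw [h3] at h2
    simp at h2
  · intro hZ
    obtain ⟨a, hsa, hinj⟩ := exists_inj
    obtain ⟨y, hy0, hy⟩ := hZ a
    have key : ∀ z : S0, (star a * a) * z = 0 → z = 0 := by
      intro z hz
      rw [hsa, mul_assoc] at hz
      exact hinj z (hinj _ hz)
    rcases hy with h | h
    · exact hy0 (key y h)
    · apply hy0
      have h1 : (star a * a) * star y = 0 := by
        have h2 := congrArg star h
        rwa [star_mul, star_mul, star_star, star_zero] at h2
      exact star_eq_zero.mp (key _ h1)
  · intro H _ _ _ _ π a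
    exact kernel π a

end Pool.Agent.Results.MP_098288_an.NotZStar
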